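import Pool.Agent.MWL.Stmts

/-! Row TAB of squad MWL (helper52) -/

set_option autoImplicit false

namespace Pool.Agent.MWL.H52

open Pool.Agent.MVO Pool.Agent.Helper14_MV Pool.Agent.Helper2_MV

/-- the list of bits of `GG` -/
def gl (l : ℕ) : List Bit := if l = 0 then [Bit.G] else [Bit.D (l - 1), Bit.F]

theorem gl_ok (l : ℕ) : ∀ β ∈ gl l, β.ok := by
  intro β hβ
  unfold gl at hβ
  split_ifs at hβ with h
  · simp at hβ
    subst hβ
    trivial
  · simp at hβ
    rcases hβ with hβ | hβ
    · subst hβ
      trivial
    · subst hβ
      trivial

theorem gl_iff (n : ℕ) (R : FC) (l : ℕ) : GG n R l ↔ ∀ β ∈ gl l, Has n R β := by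
  unfold GG gl
  split_ifs with h
  · simp
  · simp

theorem tab (hvp : HvpStmt) (ta1 : Ta1Stmt) (ta2 : Ta2Stmt) : TabStmt := by
  intro k a i hik hdeg
  by_cases hH : Hv a i
  · refine ⟨[], by simp, ?_⟩
    intro n R hLR
    have h := (hvp n R hLR k a i hik).1 hH
    constructor
    · intro _ β hβ
      simp at hβ
    · intro _
      exact h
  · by_cases h0 : a i = 0
    · by_cases hp : ∃ p < i, 2 ≤ a p
      · by_cases hq : ∃ q, i < q ∧ q ≤ k ∧ a q ≠ 0
        · refine ⟨[Bit.F], ?_, ?_⟩
          · intro β hβ
            simp at hβ
            subst hβ
            trivial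
          · intro n R hLR
            rw [(ta1 n R hLR k a i hik).1 h0 hp hq]
            simp
        · refine ⟨[Bit.E], ?_, ?_⟩
          · intro β hβ
            simp at hβ
            subst hβ
            trivial
          · intro n R hLR
            have hq' : ∀ q, i < q → q ≤ k → a q = 0 := by
              intro q h1 h2
              by_contra h3
              exact hq ⟨q, h1, h2, h3⟩
            rw [(ta1 n R hLR k a i hik).2.1 h0 hp hq']
            simp
      · have hle : ∀ p ≤ i, a p ≤ 1 := by
          intro p hpi
          rcases Nat.lt_or_ge p i with h1 | h1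
          · by_contra h2
            exact hp ⟨p, h1, by omega⟩
          · have : p = i := le_antisymm hpi h1
            subst this
            omega
        by_cases hq : ∃ q, i < q ∧ q ≤ k ∧ 2 ≤ a q
        · refine ⟨gl (lb a i), gl_ok _, ?_⟩
          intro n R hLR
          rw [(ta1 n R hLR k a i hik).2.2.1 h0 hle hq]
          exact gl_iff n R _
        · have hall : ∀ p ≤ k, a p ≤ 1 := by
            intro p hpk
            rcases Nat.lt_or_ge i p with h1 | h1
            · by_contra h2
              exact hq ⟨p, h1, hpk, by omega⟩
            · exact hle p h1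
          by_cases hn : ∃ q, i < q ∧ q ≤ k ∧ a q ≠ 0
          · refine ⟨Bit.J (deg k a) :: gl (lb a i), ?_, ?_⟩
            · intro β hβ
              rcases List.mem_cons.1 hβ with h1 | h1
              · subst h1
                exact hdeg
              · exact gl_ok _ β h1
            · intro n R hLR
              rw [(ta2 n R hLR k a i hik hall hdeg).2.1 h0 hn, gl_iff n R]
              simp
          · refine ⟨[Bit.J (deg k a), Bit.E], ?_, ?_⟩
            · intro β hβ
              simp at hβ
              rcases hβ with h1 | h1
              · subst h1
                exact hdeg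
              · subst h1
                trivial
            · intro n R hLR
              have hq' : ∀ q, i < q → q ≤ k → a q = 0 := by
                intro q h1 h2
                by_contra h3
                exact hn ⟨q, h1, h2, h3⟩
              rw [(ta2 n R hLR k a i hik hall hdeg).2.2 h0 hq']
              simp
    · have hle : ∀ p ≤ i, a p ≤ 1 := by
        intro p hpi
        by_contra h2
        exact hH ⟨h0, p, hpi, by omega⟩
      have h1 : a i = 1 := by
        have := hle i le_rfl
        omega
      by_cases hq : ∃ q, i < q ∧ q ≤ k ∧ 2 ≤ a q
      · refine ⟨[Bit.D (lb a i)], ?_, ?_⟩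
        · intro β hβ
          simp at hβ
          subst hβ
          trivial
        · intro n R hLR
          rw [(ta1 n R hLR k a i hik).2.2.2 h1 hle hq]
          simp
      · have hall : ∀ p ≤ k, a p ≤ 1 := by
          intro p hpk
          rcases Nat.lt_or_ge i p with h2 | h2
          · by_contra h3
            exact hq ⟨p, h2, hpk, by omega⟩
          · exact hle p h2
        refine ⟨[Bit.J (deg k a), Bit.D (lb a i)], ?_, ?_⟩
        · intro β hβ
          simp at hβ
          rcases hβ with h2 | h2
          · subst h2
            exact hdeg
          · subst h2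
            trivial
        · intro n R hLR
          rw [(ta2 n R hLR k a i hik hall hdeg).1 h1]
          simp

end Pool.Agent.MWL.H52
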